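import Pool.Agent.Y89.TS.Stm

/-!
# Invariant linear maps preserve the tensor systems
-/

namespace Pool.Agent.Y210.TS

open Pool.Agent.Y89.TS Finset

/-- the types of the slots -/
abbrev tt (k a b : ℕ) : Fin k ⊕ (Fin a ⊕ Fin b) → Bool :=
  Sum.elim (fun _ : Fin k => true) (Sum.elim (fun _ : Fin a => false) fun _ : Fin b => true)

theorem exists_e1 (k a b : ℕ) : ∃ e : (Fin k ⊕ Fin b) ≃ {s // tt k a b s = true},
    (∀ i, (e (Sum.inl i)).1 = Sum.inl i) ∧ (∀ i, (e (Sum.inr i)).1 = Sum.inr (Sum.inr i)) := by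
  refine ⟨Equiv.ofBijective
    (fun x => (Sum.elim (fun i => ⟨Sum.inl i, rfl⟩) (fun i => ⟨Sum.inr (Sum.inr i), rfl⟩) x :
      {s // tt k a b s = true})) ⟨?_, ?_⟩, fun i => rfl, fun i => rfl⟩
  · rintro (i | i) (j | j) h
    · have h' : (Sum.inl i : Fin k ⊕ (Fin a ⊕ Fin b)) = Sum.inl j := congrArg Subtype.val h
      rw [Sum.inl.inj h']
    · have h' : (Sum.inl i : Fin k ⊕ (Fin a ⊕ Fin b)) = Sum.inr (Sum.inr j) :=
        congrArg Subtype.val h
      exact absurd h' (by simp)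
    · have h' : (Sum.inr (Sum.inr i) : Fin k ⊕ (Fin a ⊕ Fin b)) = Sum.inl j :=
        congrArg Subtype.val h
      exact absurd h' (by simp)
    · have h' : (Sum.inr (Sum.inr i) : Fin k ⊕ (Fin a ⊕ Fin b)) = Sum.inr (Sum.inr j) :=
        congrArg Subtype.val h
      rw [Sum.inr.inj (Sum.inr.inj h')]
  · rintro ⟨(i | (j | i)), hs⟩
    · exact ⟨Sum.inl i, rfl⟩
    · simp [tt] at hs
    · exact ⟨Sum.inr i, rfl⟩

theorem exists_e2 (k a b : ℕ) : ∃ e : Fin a ≃ {s // tt k a b s = false},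
    ∀ i, (e i).1 = Sum.inr (Sum.inl i) := by
  refine ⟨Equiv.ofBijective
    (fun x => (⟨Sum.inr (Sum.inl x), rfl⟩ : {s // tt k a b s = false})) ⟨?_, ?_⟩, fun i => rfl⟩
  · intro i j h
    have h' : (Sum.inr (Sum.inl i) : Fin k ⊕ (Fin a ⊕ Fin b)) = Sum.inr (Sum.inl j) :=
      congrArg Subtype.val h
    exact Sum.inl.inj (Sum.inr.inj h')
  · rintro ⟨(i | (j | i)), hs⟩
    · simp [tt] at hs
    · exact ⟨j, rfl⟩
    · simp [tt] at hs

theorem mtch_eq {ι : Type} [Fintype ι] [DecidableEq ι] (k a b : ℕ)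
    (β : {s // tt k a b s = true} ≃ {s // tt k a b s = false}) :
    ∃ γ : Fin (k + b) ≃ Fin a, ∀ (I : Fin k → ι) (J : Fin a → ι) (J' : Fin b → ι),
      mtch (ι := ι) (tt k a b) β (Sum.elim I (Sum.elim J J')) =
        if J = fun i => Fin.append I J' (γ.symm i) then 1 else 0 := by
  obtain ⟨e1, h1l, h1r⟩ := exists_e1 k a b
  obtain ⟨e2, h2⟩ := exists_e2 k a b
  refine ⟨finSumFinEquiv.symm.trans (e1.trans (β.trans e2.symm)), fun I J J' => ?_⟩
  have ha : ∀ x : Fin k ⊕ Fin b, Fin.append I J' (finSumFinEquiv x) =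
      (Sum.elim I (Sum.elim J J') : Fin k ⊕ (Fin a ⊕ Fin b) → ι) (e1 x).1 := by
    rintro (x | x)
    · rw [h1l]; simp
    · rw [h1r]; simp
  have hb : ∀ y : {s // tt k a b s = false}, J (e2.symm y) =
      (Sum.elim I (Sum.elim J J') : Fin k ⊕ (Fin a ⊕ Fin b) → ι) y.1 := by
    intro y
    obtain ⟨i, rfl⟩ := e2.surjective y
    rw [Equiv.symm_apply_apply, h2]
    rfl
  unfold mtch
  rw [Finset.prod_ite_zero]
  simp only [Finset.prod_const_one]
  refine if_congr ?_ rfl rfl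
  constructor
  · intro h
    funext i
    have h3 := h (e1 ((finSumFinEquiv.symm.trans (e1.trans (β.trans e2.symm))).symm i |>
      finSumFinEquiv.symm)) (Finset.mem_univ _)
    rw [← ha, ← hb] at h3
    rw [Equiv.apply_symm_apply] at h3
    rw [h3]
    congr 1
    simp
  · intro h s _
    obtain ⟨x, rfl⟩ := e1.surjective s
    rw [← ha, ← hb, h]
    simp

/-- the linear map of the statement -/
noncomputable def lmap {ι : Type} [Fintype ι] (k a b : ℕ) (f : (Fin a → ι) → ℂ)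
    (f' : (Fin b → ι) → ℂ) :
    ((Fin k ⊕ (Fin a ⊕ Fin b) → ι) → ℂ) →ₗ[ℂ] ((Fin k → ι) → ℂ) where
  toFun F := fun I => ∑ J : Fin a → ι, ∑ J' : Fin b → ι,
    F (Sum.elim I (Sum.elim J J')) * f J * f' J'
  map_add' F G := by
    funext I
    simp only [Pi.add_apply, add_mul, Finset.sum_add_distrib]
  map_smul' c F := by
    funext I
    simp only [Pi.smul_apply, smul_eq_mul, Finset.mul_sum, mul_assoc, RingHom.id_apply]

theorem lmap_mtch {ι : Type} [Fintype ι] [DecidableEq ι]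
    (A : ∀ k : ℕ, Submodule ℂ ((Fin k → ι) → ℂ)) (hA : TSys A) (k a b : ℕ)
    (f : (Fin a → ι) → ℂ) (f' : (Fin b → ι) → ℂ) (hf : f ∈ A a) (hf' : f' ∈ A b)
    (β : {s // tt k a b s = true} ≃ {s // tt k a b s = false}) :
    lmap k a b f f' (mtch (ι := ι) (tt k a b) β) ∈ A k := by
  obtain ⟨γ, hγ⟩ := mtch_eq (ι := ι) k a b β
  have hab : k + b = a := by simpa using Fintype.card_congr γ
  subst hab
  have h1 := hA.pair k b _ f' (hA.perm (k + b) γ.symm f hf) hf'
  have h2 : lmap k (k + b) b f f' (mtch (ι := ι) (tt k (k + b) b) β) =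
      (fun I : Fin k → ι => ∑ J : Fin b → ι, f' J *
        (fun J : Fin (k + b) → ι => f (fun i => J (γ.symm i))) (Fin.append I J)) := by
    funext I
    change ∑ J : Fin (k + b) → ι, ∑ J' : Fin b → ι,
      mtch (ι := ι) (tt k (k + b) b) β (Sum.elim I (Sum.elim J J')) * f J * f' J' = _
    rw [Finset.sum_comm]
    refine Finset.sum_congr rfl fun J' _ => ?_
    rw [Finset.sum_eq_single (fun i => Fin.append I J' (γ.symm i))]
    · rw [hγ, if_pos rfl]; ring
    · intro J _ hJ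
      rw [hγ, if_neg hJ]; ring
    · intro h
      exact absurd (Finset.mem_univ _) h
  rw [h2]
  exact h1

theorem t_lin : S_lin := by
  intro ι _ _ A hA k a b F hF f f' hf hf'
  have h1 : Submodule.span ℂ (Set.range (mtch (ι := ι) (tt k a b))) ≤
      (A k).comap (lmap k a b f f') := by
    rw [Submodule.span_le]
    rintro G ⟨β, rfl⟩
    exact lmap_mtch A hA k a b f f' hf hf' β
  exact h1 hF

end Pool.Agent.Y210.TS
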